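import Pool.Agent.Lib.MP_3ee548_nt.RS.Iface

/-!
# ARED: the counting function modulo one against the counting function
-/

set_option autoImplicit false

open scoped BigOperators

namespace Pool.Agent.Lib.MP_3ee548_nt.RS.H75

theorem sig_nonneg (r : ℕ) (x : Fin r → ℕ) : 0 ≤ sig r x :=
  Finset.sum_nonneg fun _ _ => Real.sqrt_nonneg _

theorem sig_le (r n : ℕ) (x : Fin r → ℕ) (hx : x ∈ IV r n) : sig r x ≤ r * Real.sqrt n := by
  unfold sig
  have h : ∀ i ∈ (Finset.univ : Finset (Fin r)), Real.sqrt (x i) ≤ Real.sqrt n := by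
    intro i _
    have h1 := Fintype.mem_piFinset.mp hx i
    unfold I at h1
    have h2 := (Finset.mem_Icc.mp (Finset.mem_filter.mp h1).1).2
    exact Real.sqrt_le_sqrt (by exact_mod_cast h2)
  have := Finset.sum_le_card_nsmul _ _ _ h
  simpa using this

theorem ared (h : ShiftStatement) : AredStatement := by
  intro r
  refine ⟨4 * (2 * r + 2), by positivity, ?_⟩
  intro n η hn hη
  have hn1 : (1 : ℝ) ≤ Real.sqrt n := by
    rw [Real.one_le_sqrt]; exact_mod_cast hn
  set M : ℕ := ⌊(r : ℝ) * Real.sqrt n + 1 / 2⌋₊ with hM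
  have hMle : (M : ℝ) ≤ r * Real.sqrt n + 1 / 2 := Nat.floor_le (by positivity)
  classical
  have hsub : ((IV r n ×ˢ IV r n).filter
      (fun p => |sig r p.1 - sig r p.2 - round (sig r p.1 - sig r p.2)| ≤ η)) ⊆
      (Finset.Icc (-(M : ℤ)) M).biUnion (fun z => (IV r n ×ˢ IV r n).filter
        (fun p => |sig r p.1 - sig r p.2 - (z : ℝ)| ≤ 1 / (1 / η))) := by
    intro p hp
    obtain ⟨hp1, hp2⟩ := Finset.mem_filter.mp hp
    obtain ⟨h1, h2⟩ := Finset.mem_product.mp hp1
    rw [Finset.mem_biUnion]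
    refine ⟨round (sig r p.1 - sig r p.2), ?_, ?_⟩
    · have a1 := sig_nonneg r p.1
      have a2 := sig_nonneg r p.2
      have a3 := sig_le r n p.1 h1
      have a4 := sig_le r n p.2 h2
      have a5 := abs_le.mp (abs_sub_round (sig r p.1 - sig r p.2))
      have b1 : (round (sig r p.1 - sig r p.2) : ℝ) ≤ r * Real.sqrt n + 1 / 2 := by linarith [a5.1]
      have b2 : -(r * Real.sqrt n + 1 / 2) ≤ (round (sig r p.1 - sig r p.2) : ℝ) := by linarith [a5.2]
      rw [Finset.mem_Icc]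
      have hfl : (M : ℤ) = ⌊(r : ℝ) * Real.sqrt n + 1 / 2⌋ := by
        rw [hM]; exact Int.natCast_floor_eq_floor (by positivity)
      constructor
      · have : -round (sig r p.1 - sig r p.2) ≤ (M : ℤ) := by
          rw [hfl]; apply Int.le_floor.mpr; push_cast; linarith
        linarith
      · rw [hfl]; exact Int.le_floor.mpr b1
    · rw [Finset.mem_filter]
      refine ⟨hp1, ?_⟩
      rw [one_div_one_div]
      exact hp2
  have hcard : (A r n η : ℝ) ≤ ∑ z ∈ Finset.Icc (-(M : ℤ)) M,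
      PCz (sig r) (IV r n) (1 / η) (z : ℝ) := by
    have h1 := (Finset.card_le_card hsub).trans Finset.card_biUnion_le
    unfold A PCz
    have h2 : ((((IV r n ×ˢ IV r n).filter
      (fun p => |sig r p.1 - sig r p.2 - round (sig r p.1 - sig r p.2)| ≤ η)).card : ℕ) : ℝ) ≤
      ((∑ z ∈ Finset.Icc (-(M : ℤ)) M, ((IV r n ×ˢ IV r n).filter
        (fun p => |sig r p.1 - sig r p.2 - (z : ℝ)| ≤ 1 / (1 / η))).card : ℕ) : ℝ) := by
      exact_mod_cast h1
    push_cast at h2
    convert h2 using 2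
  have hT : (0 : ℝ) < 1 / η := by positivity
  have hPC : 0 ≤ PC (sig r) (IV r n) (1 / η) := by unfold PC; positivity
  have hsum : ∑ z ∈ Finset.Icc (-(M : ℤ)) M, PCz (sig r) (IV r n) (1 / η) (z : ℝ)
      ≤ (2 * M + 1) * (4 * PC (sig r) (IV r n) (1 / η)) := by
    have h1 := Finset.sum_le_card_nsmul (Finset.Icc (-(M : ℤ)) M)
      (fun z : ℤ => PCz (sig r) (IV r n) (1 / η) (z : ℝ)) (4 * PC (sig r) (IV r n) (1 / η))
      (fun z _ => h _ (sig r) (IV r n) (1 / η) z hT)
    refine h1.trans (le_of_eq ?_)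
    rw [Int.card_Icc, nsmul_eq_mul]
    congr 1
    have : ((M : ℤ) + 1 - -(M : ℤ)).toNat = 2 * M + 1 := by omega
    rw [this]; push_cast; ring
  refine (hcard.trans hsum).trans ?_
  have h3 : (2 * (M : ℝ) + 1) ≤ (2 * r + 2) * Real.sqrt n := by nlinarith
  calc (2 * (M : ℝ) + 1) * (4 * PC (sig r) (IV r n) (1 / η))
      ≤ ((2 * r + 2) * Real.sqrt n) * (4 * PC (sig r) (IV r n) (1 / η)) :=
        mul_le_mul_of_nonneg_right h3 (by positivity)
    _ = 4 * (2 * r + 2) * Real.sqrt n * PC (sig r) (IV r n) (1 / η) := by ring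

end Pool.Agent.Lib.MP_3ee548_nt.RS.H75
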