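import Pool.Agent.Lib.MP_3ee548_nt.RS.Iface

/-!
# DSQ: iterated differences of the square root
-/

set_option autoImplicit false

open scoped BigOperators

namespace Pool.Agent.Lib.MP_3ee548_nt.RS.H75

/-- Bounds of the `k`-th derivative give bounds of the `k`-th difference. -/
theorem dk_chain (k : ℕ) : ∀ (g : ℕ → ℝ → ℝ) (n : ℕ) (m M : ℝ),
    (∀ j < k, ∀ x : ℝ, (n : ℝ) ≤ x → x ≤ n + k → HasDerivAt (g j) (g (j + 1) x) x) →
    (∀ x : ℝ, (n : ℝ) ≤ x → x ≤ n + k → m ≤ g k x ∧ g k x ≤ M) →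
    m ≤ Dk k (fun i : ℕ => g 0 i) n ∧ Dk k (fun i : ℕ => g 0 i) n ≤ M := by
  induction k with
  | zero =>
    intro g n m M _ h
    simpa [Dk] using h n le_rfl (by simp)
  | succ k ih =>
    intro g n m M hd hb
    push_cast at hd hb
    have key : Dk (k + 1) (fun i : ℕ => g 0 i) n
        = Dk k (fun i : ℕ => (fun j x => g j (x + 1) - g j x) 0 (i : ℝ)) n := by
      unfold Dk
      rw [Function.iterate_succ_apply]
      have e : (fwdDiff 1 fun i : ℕ => g 0 (i : ℝ))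
          = (fun i : ℕ => (fun (j : ℕ) (x : ℝ) => g j (x + 1) - g j x) 0 (i : ℝ)) := by
        funext i
        simp [fwdDiff]
      rw [e]
    rw [key]
    refine ih (fun j x => g j (x + 1) - g j x) n m M ?_ ?_
    · intro j hj x hx1 hx2
      have h1 := hd j (by omega) x hx1 (by linarith)
      have h2 := hd j (by omega) (x + 1) (by linarith) (by linarith)
      exact (h2.comp_add_const x 1).sub h1
    · intro x hx1 hx2
      have hlt : x < x + 1 := by linarith
      obtain ⟨y, hy, hy2⟩ := exists_hasDerivAt_eq_slope (g k) (g (k + 1)) hlt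
        (fun z hz => (hd k (by omega) z (by linarith [hz.1]) (by linarith [hz.2])).continuousAt.continuousWithinAt)
        (fun z hz => hd k (by omega) z (by linarith [hz.1]) (by linarith [hz.2]))
      have e1 : g (k + 1) y = g k (x + 1) - g k x := by
        rw [hy2]; simp
      have h3 := hb y (by linarith [hy.1]) (by linarith [hy.2])
      rw [e1] at h3
      exact h3

/-- `(1/2)(1/2 - 1) ... (1/2 - k + 1)`. -/
noncomputable def cf (k : ℕ) : ℝ := ∏ i ∈ Finset.range k, (1 / 2 - (i : ℝ))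

theorem cf_sign (k : ℕ) : 0 < (-1) ^ (k + 2) * cf (k + 1) := by
  induction k with
  | zero => norm_num [cf]
  | succ k ih =>
    have : cf (k + 1 + 1) = cf (k + 1) * (1 / 2 - ((k + 1 : ℕ) : ℝ)) := by
      unfold cf; rw [Finset.prod_range_succ]
    rw [this]
    have e : (-1 : ℝ) ^ (k + 1 + 2) * (cf (k + 1) * (1 / 2 - ((k + 1 : ℕ) : ℝ)))
        = ((-1) ^ (k + 2) * cf (k + 1)) * (((k + 1 : ℕ) : ℝ) - 1 / 2) := by ring
    rw [e]
    refine mul_pos ih ?_
    push_cast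
    have : (0 : ℝ) ≤ k := Nat.cast_nonneg k
    linarith

theorem dsq : DsqStatement := by
  intro k hk
  obtain ⟨k, rfl⟩ : ∃ l, k = l + 1 := ⟨k - 1, by omega⟩
  have hs := cf_sign k
  set s : ℝ := (-1) ^ (k + 2) with hsdef
  have hs2 : s * s = 1 := by
    rw [hsdef, ← pow_add, ← two_mul, pow_mul]; norm_num
  set a : ℝ := s * cf (k + 1) with ha
  have hcf : cf (k + 1) = s * a := by rw [ha, ← mul_assoc, hs2, one_mul]
  refine ⟨a * ((k : ℝ) + 2) ^ (1 / 2 - ((k + 1 : ℕ) : ℝ)), a, by positivity, hs, ?_⟩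
  intro n hn
  have hn1 : (1 : ℝ) ≤ n := by exact_mod_cast hn
  have hk0 : (0 : ℝ) ≤ k := Nat.cast_nonneg k
  have hp : (1 / 2 - ((k + 1 : ℕ) : ℝ)) ≤ 0 := by push_cast; linarith
  set p : ℝ := 1 / 2 - ((k + 1 : ℕ) : ℝ) with hpdef
  have main : ∀ m M : ℝ,
      (∀ x : ℝ, (n : ℝ) ≤ x → x ≤ n + ((k + 1 : ℕ) : ℝ) → m ≤ cf (k + 1) * x ^ p ∧ cf (k + 1) * x ^ p ≤ M) →
      m ≤ Dk (k + 1) sqf n ∧ Dk (k + 1) sqf n ≤ M := by
    intro m M h
    have h1 := dk_chain (k + 1) (fun j x => cf j * x ^ (1 / 2 - (j : ℝ))) n m M ?_ ?_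
    · have e : (fun i : ℕ => (fun (j : ℕ) (x : ℝ) => cf j * x ^ (1 / 2 - (j : ℝ))) 0 (i : ℝ)) = sqf := by
        funext i
        simp [cf, sqf, Real.sqrt_eq_rpow]
      rw [e] at h1
      exact h1
    · intro j _ x hx _
      have hx0 : x ≠ 0 := by linarith
      have h2 := (Real.hasDerivAt_rpow_const (x := x) (p := 1 / 2 - (j : ℝ)) (Or.inl hx0)).const_mul (cf j)
      have e2 : cf j * ((1 / 2 - (j : ℝ)) * x ^ ((1 / 2 - (j : ℝ)) - 1))
          = cf (j + 1) * x ^ (1 / 2 - ((j + 1 : ℕ) : ℝ)) := by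
        have : cf (j + 1) = cf j * (1 / 2 - (j : ℝ)) := by
          unfold cf; rw [Finset.prod_range_succ]
        rw [this]
        have e3 : (1 / 2 - ((j + 1 : ℕ) : ℝ)) = (1 / 2 - (j : ℝ)) - 1 := by push_cast; ring
        rw [e3]; ring
      rw [e2] at h2
      exact h2
    · exact h
  have lo : ∀ x : ℝ, (n : ℝ) ≤ x → x ≤ n + ((k + 1 : ℕ) : ℝ) →
      ((k : ℝ) + 2) ^ p * (n : ℝ) ^ p ≤ x ^ p ∧ x ^ p ≤ (n : ℝ) ^ p := by
    intro x hx1 hx2
    push_cast at hx2
    constructor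
    · rw [← Real.mul_rpow (by linarith) (by linarith)]
      exact Real.rpow_le_rpow_of_nonpos (by linarith) (by nlinarith) hp
    · exact Real.rpow_le_rpow_of_nonpos (by linarith) hx1 hp
  have hs1 : s = 1 ∨ s = -1 := by
    have : (s - 1) * (s + 1) = 0 := by nlinarith
    rcases mul_eq_zero.mp this with h | h
    · left; linarith
    · right; linarith
  change a * ((k : ℝ) + 2) ^ p * (n : ℝ) ^ p ≤ s * Dk (k + 1) sqf n ∧
    s * Dk (k + 1) sqf n ≤ a * (n : ℝ) ^ p
  rcases hs1 with h1 | h1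
  · have h2 := main (a * ((k : ℝ) + 2) ^ p * (n : ℝ) ^ p) (a * (n : ℝ) ^ p) (by
      intro x hx1 hx2
      obtain ⟨l1, l2⟩ := lo x hx1 hx2
      rw [hcf, h1, one_mul]
      constructor
      · rw [mul_assoc]; exact mul_le_mul_of_nonneg_left l1 hs.le
      · exact mul_le_mul_of_nonneg_left l2 hs.le)
    rw [h1, one_mul]
    exact h2
  · have h2 := main (-(a * (n : ℝ) ^ p)) (-(a * ((k : ℝ) + 2) ^ p * (n : ℝ) ^ p)) (by
      intro x hx1 hx2
      obtain ⟨l1, l2⟩ := lo x hx1 hx2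
      have l3 := mul_le_mul_of_nonneg_left l1 hs.le
      have l4 := mul_le_mul_of_nonneg_left l2 hs.le
      rw [hcf, h1]
      constructor
      · linarith
      · linarith)
    rw [h1]
    constructor
    · linarith [h2.2]
    · linarith [h2.1]

end Pool.Agent.Lib.MP_3ee548_nt.RS.H75
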